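import Pool.Agent.H23.LC.Targets
import Pool.Agent.H61.GLA.H2
import Pool.Agent.H92.RC.ID
import Pool.Agent.H69.RC.CI
import Pool.Agent.H63.HK.DU

/-!
# DC: the dual coefficients
-/

set_option autoImplicit false

open NumberField NumberField.InfinitePlace NumberField.Units
  NumberField.Units.dirichletUnitTheorem MeasureTheory Set Filter Complex
open scoped nonZeroDivisors ENNReal

namespace Pool.Agent.H34.GLB

open Pool.Agent.H25.HK Pool.Agent.H23.LB Pool.Agent.H23.LC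
open Pool.Agent.H28.RC (Rep ft idl)

section

variable {K : Type} [Field K] [NumberField K]

theorem dc_conj_mul {z : ℂ} (h : ‖z‖ = 1) : z * (starRingEnd ℂ) z = 1 := by
  rw [Complex.mul_conj, Complex.normSq_eq_norm_sq, h]
  simp

theorem dc_ft_norm (X : Finset K) (c : K → ℂ) (hc : ∀ r ∈ X, ‖c r‖ ≤ 1) (y : K) :
    ‖ft K X c y‖ ≤ X.card := by
  have h1 : ‖ft K X c y‖ ≤ ∑ _r ∈ X, (1 : ℝ) := by
    refine (norm_sum_le _ _).trans (Finset.sum_le_sum fun r hr => ?_)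
    rw [norm_mul]
    have h2 : ‖cexp (2 * Real.pi * I * ((Algebra.trace ℚ K (r * y) : ℚ) : ℂ))‖ = 1 := by
      have h3 : 2 * (Real.pi : ℂ) * I * ((Algebra.trace ℚ K (r * y) : ℚ) : ℂ) =
          ((2 * Real.pi * ((Algebra.trace ℚ K (r * y) : ℚ) : ℝ) : ℝ) : ℂ) * I := by
        push_cast
        ring
      rw [h3, Complex.norm_exp_ofReal_mul_I]
    rw [h2, mul_one]
    exact hc r hr
  refine h1.trans (le_of_eq ?_)
  simp

omit [NumberField K] in
/-- multiplication by a unit permutes the residue classes -/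
theorem dc_rep (f : Ideal (𝓞 K)) (M : FI K) (X : Finset K) (hX : Rep K f M X) (u : (𝓞 K)ˣ) :
    Rep K f M (X.map ⟨fun r => ((u : 𝓞 K) : K) * r, fun a b h => by
      have hu : ((u : 𝓞 K) : K) ≠ 0 := by simp
      exact mul_left_cancel₀ hu h⟩) := by
  have hmul : ∀ (L : FI K) (a : 𝓞 K) (x : K), x ∈ L → (a : K) * x ∈ L := by
    intro L a x hx
    have h1 := (L : Submodule (𝓞 K) K).smul_mem a hx
    rw [Algebra.smul_def] at h1
    exact h1
  have hui : (((u⁻¹ : (𝓞 K)ˣ) : 𝓞 K) : K) * ((u : 𝓞 K) : K) = 1 := by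
    rw [← map_mul, Units.inv_mul, map_one]
  have hui' : ((u : 𝓞 K) : K) * (((u⁻¹ : (𝓞 K)ˣ) : 𝓞 K) : K) = 1 := by
    rw [← map_mul, Units.mul_inv, map_one]
  refine ⟨?_, ?_⟩
  · intro r hr
    rw [Finset.mem_map] at hr
    obtain ⟨s, hs, rfl⟩ := hr
    exact hmul M _ s (hX.1 s hs)
  · intro x hx
    obtain ⟨r, ⟨hr, hr2⟩, hun⟩ := hX.2 ((((u⁻¹ : (𝓞 K)ˣ) : 𝓞 K) : K) * x) (hmul M _ x hx)
    refine ⟨((u : 𝓞 K) : K) * r, ⟨?_, ?_⟩, ?_⟩
    · rw [Finset.mem_map]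
      exact ⟨r, hr, rfl⟩
    · have h1 := hmul _ (u : 𝓞 K) _ hr2
      rw [mul_sub, ← mul_assoc, hui', one_mul] at h1
      exact h1
    · rintro s ⟨hs, hs2⟩
      rw [Finset.mem_map] at hs
      obtain ⟨t, ht, rfl⟩ := hs
      have h1 := hmul _ ((u⁻¹ : (𝓞 K)ˣ) : 𝓞 K) _ hs2
      change (((u⁻¹ : (𝓞 K)ˣ) : 𝓞 K) : K) * (x - ((u : 𝓞 K) : K) * t) ∈ _ at h1
      rw [mul_sub, ← mul_assoc _ _ t, hui, one_mul] at h1
      have h2 := hun t ⟨ht, h1⟩
      change ((u : 𝓞 K) : K) * t = _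
      rw [h2]

end

theorem pf_DC (hAG : U_AG) (hCG : U_CG) (hRR : T_RR) (hPU : T_PU) : U_DC := by
  intro K _ _ f hf D χ
  have hN : 0 < Nf K f := by
    unfold Nf
    have h1 : Ideal.absNorm f ≠ 0 := by
      rw [Ne, Ideal.absNorm_eq_zero_iff]
      exact hf
    exact_mod_cast Nat.pos_of_ne_zero h1
  have hs : 0 < Real.sqrt (Nf K f) := Real.sqrt_pos.mpr hN
  obtain ⟨ag_mul, ag_norm, -, -, -, -⟩ := hAG K χ.k
  obtain ⟨-, -, -, -, -, ph_mul, ph_norm⟩ := hPU K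
  have hM0 : ∀ c, D.M c ≠ 0 := D.reps.1
  have hf0 : (f : FI K) ≠ 0 := FractionalIdeal.coeIdeal_ne_zero.mpr hf
  have hfM : ∀ c, (f : FI K) * D.M c ≠ 0 := fun c => mul_ne_zero hf0 (hM0 c)
  have hReps : Reps K fun c => du K ((f : FI K) * D.M c) :=
    (hRR K D.ι _ ((hRR K D.ι D.M D.reps).1 f hf)).2.1
  refine ⟨fun J => ?_, fun c x hx hx0 => ?_⟩
  · unfold cd
    split_ifs with h
    · have hx0 := h.choose_spec.1
      set x := h.choose.2 with hxdef
      set c := h.choose.1 with hcdef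
      have h1 : ‖ch D χ c x‖ ≤ Nf K f := by
        refine (dc_ft_norm _ _ (fun r hr => ?_) _).trans
          (Pool.Agent.H61.GLA.rep_card_le f (D.M c) hf (hM0 c) (D.X c) (D.rep c))
        exact (hCG K f χ (D.M c) hf (hM0 c)).2.1 r ((D.rep c).1 r hr)
      rw [norm_mul, norm_mul, norm_mul, RCLike.norm_conj, RCLike.norm_conj, ag_norm x hx0,
        ph_norm, mul_one, mul_one, norm_inv, Complex.norm_real, Real.norm_of_nonneg hs.le]
      rw [inv_mul_le_iff₀ hs, Real.mul_self_sqrt hN.le]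
      exact h1
    · simp
  · have hL0 : du K ((f : FI K) * D.M c) ≠ 0 := hReps.1 c
    have hJ := Pool.Agent.H92.RC.idl_mul (du K ((f : FI K) * D.M c)) hL0 hx
    set J := idl K (du K ((f : FI K) * D.M c)) x with hJdef
    have hJ0 : J ≠ ⊥ := by
      intro h0
      rw [h0, FractionalIdeal.coeIdeal_bot, zero_mul] at hJ
      exact hx0 (FractionalIdeal.spanSingleton_eq_zero_iff.mp hJ.symm)
    have hex : ∃ p : D.ι × K, p.2 ≠ 0 ∧ (J : FI K) * du K ((f : FI K) * D.M p.1) =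
        FractionalIdeal.spanSingleton (𝓞 K)⁰ p.2 := ⟨(c, x), hx0, hJ⟩
    have hkey : ∀ p : D.ι × K, p.2 ≠ 0 ∧ (J : FI K) * du K ((f : FI K) * D.M p.1) =
        FractionalIdeal.spanSingleton (𝓞 K)⁰ p.2 →
        ch D χ p.1 p.2 * (starRingEnd ℂ) (ag χ.k p.2) * (starRingEnd ℂ) (ph χ.ν p.2) =
          ch D χ c x * (starRingEnd ℂ) (ag χ.k x) * (starRingEnd ℂ) (ph χ.ν x) := by
      rintro ⟨c', x'⟩ ⟨h1, h2⟩
      obtain ⟨d, -, hd⟩ := hReps.2 J hJ0
      have e1 : c' = d := hd c' ⟨hJ0, x', h2⟩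
      have e2 : c = d := hd c ⟨hJ0, x, hJ⟩
      have e3 : c' = c := e1.trans e2.symm
      subst e3
      have h3 := hJ.symm.trans h2
      rw [FractionalIdeal.spanSingleton_eq_spanSingleton] at h3
      obtain ⟨u, hu⟩ := h3
      have hu' : x' = ((u : 𝓞 K) : K) * x := by
        have hu2 : u • x = x' := hu
        rw [← hu2, Units.smul_def, Algebra.smul_def]
      have hu0 : ((u : 𝓞 K) : K) ≠ 0 := by simp
      obtain ⟨-, -, cg_unit, cg_per, -⟩ := hCG K f χ (D.M c') hf (hM0 c')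
      have h4 : ch D χ c' x = (starRingEnd ℂ) (ag χ.k ((u : 𝓞 K) : K)) *
          (starRingEnd ℂ) (ph χ.ν ((u : 𝓞 K) : K)) * ch D χ c' x' := by
        unfold ch
        rw [Pool.Agent.H69.RC.ft_rep (hfM c') (D.rep c') (dc_rep f (D.M c') (D.X c') (D.rep c') u)
          (cg χ (D.M c')) cg_per hx]
        unfold ft
        rw [Finset.sum_map, Finset.mul_sum]
        refine Finset.sum_congr rfl fun r hr => ?_
        change cg χ (D.M c') (((u : 𝓞 K) : K) * r) * _ = _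
        rw [cg_unit u r ((D.rep c').1 r hr), hu']
        have h5 : ((u : 𝓞 K) : K) * r * x = r * (((u : 𝓞 K) : K) * x) := by ring
        change _ * cexp (2 * Real.pi * I * ((Algebra.trace ℚ K (((u : 𝓞 K) : K) * r * x) : ℚ) : ℂ))
          = _
        rw [h5]
        ring
      change ch D χ c' x' * (starRingEnd ℂ) (ag χ.k x') * (starRingEnd ℂ) (ph χ.ν x') = _
      rw [h4, hu', ag_mul _ _ hu0 hx0, ph_mul _ _ _ hu0 hx0, map_mul, map_mul]
      ring
    unfold cd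
    rw [dif_pos hex]
    have h6 := hkey hex.choose hex.choose_spec
    have h7 : ((Real.sqrt (Nf K f) : ℝ) : ℂ) ≠ 0 := by
      exact_mod_cast hs.ne'
    rw [← h6]
    field_simp

end Pool.Agent.H34.GLB
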